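import Pool.Statements.S06521
import Pool.Agent.Zk56.NU.Ex

set_option autoImplicit false
open Pool Pool.MP_e7ec4f_an

namespace Pool.Agent.S06521


open Pool.Agent.Zk56.NU in
/-- enumeration of the index set -/
noncomputable def eqv : ℕ ≃ Idx := (Denumerable.eqv Idx).symm

open Pool.Agent.Zk56.NU in
/-- the basis -/
noncomputable def bas (n : ℕ) : X := ⟨e (eqv n), e_mem _⟩

open Pool.Agent.Zk56.NU in
/-- the coordinate functionals -/
noncomputable def fun' (n : ℕ) : X →ₗ[ℝ] ℝ where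
  toFun f := cf (f : E) (eqv n)
  map_add' _ _ := rfl
  map_smul' _ _ := rfl

/-- There is a real or complex quasi-Banach space with a bounded biorthogonal basis that is nearly unconditional (coordinates at least a can be projected boundedly) but not truncation quasi-greedy. -/
theorem result :
    ∃ (𝕂 : Type) (_ : RCLike 𝕂) (X : Type) (_ : AddCommGroup X) (_ : Module 𝕂 X)
      (q : X → ℝ) (κ : ℝ) (x : ℕ → X) (xs : ℕ → X →ₗ[𝕂] 𝕂),
      (∀ f : X, 0 ≤ q f) ∧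
      (∀ f : X, q f = 0 → f = 0) ∧
      (∀ (c : 𝕂) (f : X), q (c • f) = ‖c‖ * q f) ∧
      (∀ f g : X, q (f + g) ≤ κ * (q f + q g)) ∧
      (∀ u : ℕ → X, (∀ ε : ℝ, 0 < ε → ∃ N : ℕ, ∀ m ≥ N, ∀ n ≥ N, q (u m - u n) < ε) →
        ∃ f : X, ∀ ε : ℝ, 0 < ε → ∃ N : ℕ, ∀ n ≥ N, q (u n - f) < ε) ∧
      (∃ B : ℝ, ∀ n : ℕ, q (x n) ≤ B) ∧
      (∃ M : ℝ, ∀ (n : ℕ) (f : X), ‖xs n f‖ ≤ M * q f) ∧
      (∀ m n : ℕ, xs m (x n) = if m = n then 1 else 0) ∧
      (∀ f : X, ∀ ε : ℝ, 0 < ε → ∃ g ∈ Submodule.span 𝕂 (Set.range x), q (f - g) < ε) ∧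
      (∀ a : ℝ, 0 < a → a ≤ 1 → ∃ C : ℝ, ∀ f : X, (∀ n : ℕ, ‖xs n f‖ ≤ 1) →
        ∀ A : Finset ℕ, (∀ n ∈ A, a ≤ ‖xs n f‖) →
          q (∑ n ∈ A, xs n f • x n) ≤ C * q f) ∧
      ¬ (∃ C : ℝ, ∀ f : X, ∀ A : Finset ℕ, A.Nonempty →
          (∀ n ∈ A, ∀ k : ℕ, k ∉ A → ‖xs k f‖ ≤ ‖xs n f‖) →
          ∀ t : ℝ, (∀ n ∈ A, t ≤ ‖xs n f‖) →
            t * q (∑ n ∈ A, (xs n f / ((‖xs n f‖ : ℝ) : 𝕂)) • x n) ≤ C * q f) := by
  refine ⟨ℝ, inferInstance, Zk56.NU.X, inferInstance, inferInstance, fun f => ‖f‖, 1, bas, fun',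
    fun f => norm_nonneg f, fun f hf => norm_eq_zero.1 hf, fun c f => norm_smul c f,
    fun f g => by rw [one_mul]; exact norm_add_le f g, ?_, ⟨3, fun n => Zk56.NU.norm_e_le _⟩,
    ⟨1, fun n f => ?_⟩, ?_, ?_, ?_, ?_⟩
  · intro u hu
    have : CompleteSpace Zk56.NU.X :=
      (Submodule.isClosed_topologicalClosure _).completeSpace_coe
    have hc : CauchySeq u := by
      rw [Metric.cauchySeq_iff]
      intro ε hε
      obtain ⟨N, hN⟩ := hu ε hε
      refine ⟨N, fun m hm n hn => ?_⟩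
      rw [dist_eq_norm]
      exact hN m hm n hn
    obtain ⟨f, hf⟩ := cauchySeq_tendsto_of_complete hc
    refine ⟨f, fun ε hε => ?_⟩
    obtain ⟨N, hN⟩ := Metric.tendsto_atTop.1 hf ε hε
    refine ⟨N, fun n hn => ?_⟩
    have := hN n hn
    rwa [dist_eq_norm] at this
  · rw [one_mul]
    exact Zk56.NU.abs_cf_le (f : Zk56.NU.E) _
  · intro m n
    change (Pi.single (eqv n) (1 : ℝ) : Zk56.NU.Idx → ℝ) (eqv m) = _
    by_cases h : m = n
    · subst h; simp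
    · rw [Pi.single_eq_of_ne (fun h' => h (eqv.injective h')), if_neg h]
  · intro f ε hε
    have h1 : (f : Zk56.NU.E) ∈ closure
        ((Submodule.span ℝ (Set.range Zk56.NU.e) : Submodule ℝ Zk56.NU.E) : Set Zk56.NU.E) := f.2
    obtain ⟨g, hg, hgf⟩ := Metric.mem_closure_iff.1 h1 ε hε
    have hspan : ∀ g : Zk56.NU.E, g ∈ Submodule.span ℝ (Set.range Zk56.NU.e) →
        ∃ g' ∈ Submodule.span ℝ (Set.range bas), (g' : Zk56.NU.E) = g := by
      intro g hg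
      induction hg using Submodule.span_induction with
      | mem x hx =>
        obtain ⟨m, rfl⟩ := hx
        refine ⟨bas (eqv.symm m), Submodule.subset_span ⟨_, rfl⟩, ?_⟩
        simp [bas]
      | zero => exact ⟨0, Submodule.zero_mem _, rfl⟩
      | add x y _ _ hx hy =>
        obtain ⟨x', h1, h2⟩ := hx
        obtain ⟨y', h3, h4⟩ := hy
        exact ⟨x' + y', Submodule.add_mem _ h1 h3, by rw [← h2, ← h4]; rfl⟩
      | smul c x _ hx =>
        obtain ⟨x', h1, h2⟩ := hx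
        exact ⟨c • x', Submodule.smul_mem _ _ h1, by rw [← h2]; rfl⟩
    obtain ⟨g', hg', rfl⟩ := hspan g hg
    refine ⟨g', hg', ?_⟩
    rw [dist_eq_norm] at hgf
    exact hgf
  · intro a ha _
    obtain ⟨C, _, hC⟩ := Zk56.NU.near a ha
    refine ⟨C, fun f hf A hA => ?_⟩
    have h1 := hC (f : Zk56.NU.E) f.2 (fun m => by
      have := hf (eqv.symm m)
      simpa [fun'] using this) (A.map eqv.toEmbedding) (by
      intro n hn
      rw [Finset.mem_map] at hn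
      obtain ⟨k, hk, rfl⟩ := hn
      exact hA k hk)
    rw [Finset.sum_map] at h1
    refine le_trans (le_of_eq ?_) h1
    change ‖((∑ n ∈ A, fun' n f • bas n : Zk56.NU.X) : Zk56.NU.E)‖ = _
    rw [Submodule.coe_sum]
    rfl
  · rintro ⟨C, hC⟩
    obtain ⟨L, hL⟩ := pow_unbounded_of_one_lt (C + 1) (by norm_num : (1 : ℝ) < 2)
    let f : Zk56.NU.X := ⟨Zk56.NU.vec (L + 1), Zk56.NU.vec_mem _⟩
    have hxs : ∀ n, fun' n f = if eqv n ∈ Zk56.NU.nodes (L + 1) then (1 / 4 : ℝ) ^ (eqv n).2.1 else 0 :=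
      fun n => Zk56.NU.cf_vec (L + 1) (eqv n)
    let A : Finset ℕ := (Zk56.NU.nodes (L + 1)).map eqv.symm.toEmbedding
    have hA : ∀ n, n ∈ A ↔ eqv n ∈ Zk56.NU.nodes (L + 1) := by
      intro n
      simp only [A, Finset.mem_map, Equiv.coe_toEmbedding]
      constructor
      · rintro ⟨m, hm, rfl⟩
        rwa [Equiv.apply_symm_apply]
      · intro h
        exact ⟨eqv n, h, by simp⟩
    have hpos : ∀ n ∈ A, fun' n f = (1 / 4 : ℝ) ^ (eqv n).2.1 := fun n hn => by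
      rw [hxs, if_pos ((hA n).1 hn)]
    have h1 := hC f A ⟨eqv.symm (L + 1, 0, 0), by
        rw [hA, Equiv.apply_symm_apply, Zk56.NU.mem_nodes]
        exact ⟨rfl, by simp, by simp⟩⟩ (by
      intro n hn k hk
      rw [hxs k, if_neg (fun h => hk ((hA k).2 h)), norm_zero]
      exact norm_nonneg _) ((1 / 4 : ℝ) ^ (L + 1)) (by
      intro n hn
      rw [hpos n hn, Real.norm_eq_abs, abs_of_nonneg (by positivity)]
      have h2 := (Zk56.NU.mem_nodes _ _).1 ((hA n).1 hn)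
      exact pow_le_pow_of_le_one (by norm_num) (by norm_num) h2.2.1)
    have h2 : (∑ n ∈ A, (fun' n f / ((‖fun' n f‖ : ℝ) : ℝ)) • bas n : Zk56.NU.X)
        = ∑ n ∈ A, bas n := by
      refine Finset.sum_congr rfl fun n hn => ?_
      rw [hpos n hn, Real.norm_eq_abs, abs_of_nonneg (by positivity), div_self (by positivity),
        one_smul]
    have h3 : ((∑ n ∈ A, bas n : Zk56.NU.X) : Zk56.NU.E) = ∑ n ∈ Zk56.NU.nodes (L + 1), Zk56.NU.e n := by
      rw [Submodule.coe_sum, Finset.sum_map]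
      refine Finset.sum_congr rfl fun n _ => ?_
      simp [bas]
    have h4 := Zk56.NU.flat_ge L
    have h5 : ‖(∑ n ∈ A, bas n : Zk56.NU.X)‖ = ‖∑ n ∈ Zk56.NU.nodes (L + 1), Zk56.NU.e n‖ := by
      rw [← h3]; rfl
    have h6 : ‖f‖ ≤ 1 := Zk56.NU.norm_vec_le (L + 1)
    have h7 : 0 ≤ ‖f‖ := norm_nonneg f
    have h8 : (1 / 4 : ℝ) ^ (L + 1) * ‖(∑ n ∈ A, bas n : Zk56.NU.X)‖ ≤ C * ‖f‖ := by
      rw [← h2]; exact h1
    rw [h5] at h8
    have h9 : (1 / 4 : ℝ) ^ (L + 1) * (8 ^ (L + 1) * (3 / 4)) ≤ C * ‖f‖ :=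
      (mul_le_mul_of_nonneg_left h4 (by positivity)).trans h8
    have h10 : (1 / 4 : ℝ) ^ (L + 1) * (8 ^ (L + 1) * (3 / 4)) = 2 ^ L * (3 / 2) := by
      rw [← mul_assoc, ← mul_pow]
      norm_num [pow_succ]
      ring
    rw [h10] at h9
    have h11 : (0 : ℝ) < 2 ^ L := by positivity
    rcases le_or_gt C 0 with hC0 | hC0
    · nlinarith [mul_nonneg (neg_nonneg.2 hC0) h7]
    · nlinarith

end Pool.Agent.S06521
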